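import Pool.Agent.Helper20.R.Defs

/-!
# The volume is at least the double integral of `om` (layer cake)
-/

set_option autoImplicit false
namespace Pool.Agent.Helper12.R0
open MeasureTheory Metric
open Pool.Agent.Helper59.Pack Pool.Agent.Helper69.MD Pool.Agent.Helper7.LS Pool.Agent.Helper20.R
open scoped ENNReal

/-- The area in the coordinates `ch u e`. -/
theorem vol_ch {u e : P2} (hue : det2 u e = 1) (A : Set P2) :
    volume ((fun p : ℝ × ℝ => ch u e p.1 p.2) ⁻¹' A) = volume A := by
  set M : Matrix (Fin 2) (Fin 2) ℝ := !![u 0, e 0; u 1, e 1] with hM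
  have hdet : LinearMap.det (Matrix.toLin' M) = 1 := by
    rw [LinearMap.det_toLin', hM, Matrix.det_fin_two_of, ← hue, det2]
    ring
  have h1 := (volume_preserving_finTwoArrow ℝ).measure_preimage_equiv
    ((fun p : ℝ × ℝ => ch u e p.1 p.2) ⁻¹' A)
  have h2 : (MeasurableEquiv.finTwoArrow (α := ℝ)) ⁻¹' ((fun p : ℝ × ℝ => ch u e p.1 p.2) ⁻¹' A) =
      (Matrix.toLin' M) ⁻¹' A := by
    ext p
    have e1 : ch u e (p 0) (p 1) = Matrix.toLin' M p := by
      rw [Matrix.toLin'_apply]
      ext i
      fin_cases i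
      · simp [hM, Matrix.mulVec, dotProduct, Fin.sum_univ_two, ch]
        ring
      · simp [hM, Matrix.mulVec, dotProduct, Fin.sum_univ_two, ch]
        ring
    simp only [Set.mem_preimage, MeasurableEquiv.finTwoArrow_apply]
    rw [e1]
  rw [← h1, h2, Measure.addHaar_preimage_linearMap _ (by rw [hdet]; norm_num), hdet]
  simp

theorem continuous_ch (u e : P2) : Continuous fun p : ℝ × ℝ => ch u e p.1 p.2 := by
  unfold ch
  fun_prop

theorem det2_ch {u e : P2} (hue : det2 u e = 1) (X Y : ℝ) : det2 (ch u e X Y) e = X := by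
  have h : det2 (ch u e X Y) e = X * det2 u e := by
    simp only [det2, ch, Pi.add_apply, Pi.smul_apply, smul_eq_mul]; ring
  rw [h, hue, mul_one]

/-- The planar case. -/
theorem planar_cake {u e : P2} (hue : det2 u e = 1) {A : Set P2} (hA : IsCompact A)
    (hc : Convex ℝ A) :
    ∫⁻ l in Set.Ioi 0, volume {Y | ∃ X, ch u e X Y ∈ A ∧ ch u e (X + l) Y ∈ A} ≤ volume A := by
  set B : Set (ℝ × ℝ) := (fun p : ℝ × ℝ => ch u e p.1 p.2) ⁻¹' A with hB
  have hBm : MeasurableSet B := (hA.isClosed.preimage (continuous_ch u e)).measurableSet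
  set r : ℝ → ℝ≥0∞ := fun Y => volume ((fun X => (X, Y)) ⁻¹' B) with hr
  have hrm : Measurable r := measurable_measure_prodMk_right hBm
  have hfin : ∀ Y, r Y ≠ ∞ := by
    intro Y
    have hcomp : IsCompact ((fun y => det2 y e) '' A) :=
      hA.image (by unfold det2; fun_prop)
    refine ((measure_mono ?_).trans_lt hcomp.measure_lt_top).ne
    intro X hX
    exact ⟨ch u e X Y, hX, det2_ch hue X Y⟩
  have hle : ∀ l : ℝ, 0 < l → ∀ Y, (∃ X, ch u e X Y ∈ A ∧ ch u e (X + l) Y ∈ A) →
      l ≤ (r Y).toReal := by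
    rintro l hl Y ⟨X, h1, h2⟩
    rw [← ENNReal.ofReal_le_iff_le_toReal (hfin Y)]
    have hsub : Set.Icc X (X + l) ⊆ (fun X => (X, Y)) ⁻¹' B := by
      intro s hs
      change ch u e s Y ∈ A
      have h3 := hc h1 h2 (a := 1 - (s - X) / l) (b := (s - X) / l)
        (by
          rw [sub_nonneg, div_le_one hl]
          linarith [hs.2]) (div_nonneg (by linarith [hs.1]) hl.le) (by ring)
      convert h3 using 1
      have e1 : s = X + (s - X) / l * l := by field_simp; ring
      unfold ch
      conv_lhs => rw [e1]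
      module
    calc ENNReal.ofReal l = volume (Set.Icc X (X + l)) := by
          rw [Real.volume_Icc]; congr 1; ring
      _ ≤ r Y := measure_mono hsub
  calc ∫⁻ l in Set.Ioi 0, volume {Y | ∃ X, ch u e X Y ∈ A ∧ ch u e (X + l) Y ∈ A}
      ≤ ∫⁻ l in Set.Ioi 0, volume {Y | l ≤ (r Y).toReal} := by
        apply setLIntegral_mono' measurableSet_Ioi
        intro l hl
        exact measure_mono (fun Y hY => hle l hl Y hY)
    _ = ∫⁻ Y, ENNReal.ofReal ((r Y).toReal) := by
        rw [lintegral_eq_lintegral_meas_le _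
          (Filter.Eventually.of_forall (fun Y => ENNReal.toReal_nonneg))
          (hrm.ennreal_toReal).aemeasurable]
    _ = ∫⁻ Y, r Y := by
        refine lintegral_congr (fun Y => ?_)
        rw [ENNReal.ofReal_toReal (hfin Y)]
    _ = volume B := by
        rw [Measure.volume_eq_prod, Measure.prod_apply_symm hBm]
    _ = volume A := vol_ch hue A

theorem lev_isCompact {K : Set E3} (hK : IsConvexBody K) {t : ℝ} (ht : 0 < t) :
    IsCompact (lev K t) := by
  have e : lev K t = {y | t ≤ len K y} := by
    ext y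
    refine ⟨fun h => h.2, fun hy => ⟨?_, hy⟩⟩
    by_contra hn
    have h1 : t ≤ len K y := hy
    rw [len_off hn] at h1
    linarith
  rw [e]
  exact superlevel_compact hK ht

/-- The volume of `K` is at least the double integral of a measurable minorant of `om`. -/
theorem vol_ge_om {K : Set E3} (hK : IsConvexBody K) {u e : P2} (hue : det2 u e = 1)
    {f : ℝ × ℝ → ℝ≥0∞} (hf : Measurable f) (h0 : ∀ t l, f (t, l) ≠ 0 → 0 < t ∧ 0 < l)
    (hle : ∀ t l, f (t, l) ≤ ENNReal.ofReal (om K u e t l)) : ∫⁻ p, f p ≤ volume K := by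
  have hin : ∀ t : ℝ, ∫⁻ l, f (t, l) ≤ (Set.Ioi (0 : ℝ)).indicator
      (fun t => volume {y | t ≤ len K y}) t := by
    intro t
    by_cases ht : 0 < t
    · rw [Set.indicator_of_mem (show t ∈ Set.Ioi (0 : ℝ) from ht)]
      calc ∫⁻ l, f (t, l) ≤ ∫⁻ l, (Set.Ioi (0 : ℝ)).indicator (fun l =>
            volume {Y | ∃ X, ch u e X Y ∈ lev K t ∧ ch u e (X + l) Y ∈ lev K t}) l := by
            apply lintegral_mono
            intro l
            by_cases hl : 0 < l
            · rw [Set.indicator_of_mem (show l ∈ Set.Ioi (0 : ℝ) from hl)]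
              exact (hle t l).trans ENNReal.ofReal_toReal_le
            · rw [Set.indicator_of_notMem (show l ∉ Set.Ioi (0 : ℝ) from hl)]
              have : f (t, l) = 0 := by
                by_contra h
                exact hl (h0 t l h).2
              exact this.le
        _ = ∫⁻ l in Set.Ioi 0,
            volume {Y | ∃ X, ch u e X Y ∈ lev K t ∧ ch u e (X + l) Y ∈ lev K t} := by
            rw [lintegral_indicator measurableSet_Ioi]
        _ ≤ volume (lev K t) := planar_cake hue (lev_isCompact hK ht)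
            ((len_concave hK).convex_ge t)
        _ ≤ volume {y | t ≤ len K y} := measure_mono (fun y hy => hy.2)
    · rw [Set.indicator_of_notMem (show t ∉ Set.Ioi (0 : ℝ) from ht)]
      have : ∀ l, f (t, l) = 0 := by
        intro l
        by_contra h
        exact ht (h0 t l h).1
      simp [this]
  calc ∫⁻ p, f p = ∫⁻ t, ∫⁻ l, f (t, l) := by
        rw [Measure.volume_eq_prod, lintegral_prod _ hf.aemeasurable]
    _ ≤ ∫⁻ t, (Set.Ioi (0 : ℝ)).indicator (fun t => volume {y | t ≤ len K y}) t :=
        lintegral_mono hin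
    _ = ∫⁻ t in Set.Ioi 0, volume {y | t ≤ len K y} := by
        rw [lintegral_indicator measurableSet_Ioi]
    _ = ∫⁻ y, ENNReal.ofReal (len K y) := by
        rw [lintegral_eq_lintegral_meas_le _
          (Filter.Eventually.of_forall (fun y => len_nonneg K y))
          (measurable_len hK).aemeasurable]
    _ = volume K := by
        rw [volume_eq hK]
        refine lintegral_congr (fun y => ?_)
        rw [len, ENNReal.ofReal_toReal (sec_finite hK y)]

end Pool.Agent.Helper12.R0
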